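import Mathlib
import Pool.Agent.DPQ.Det
import Pool.Agent.DPQ.Ex
import Pool.Agent.DCN.MainB

/-!
Closed form of the determinant `D_p` for every prime `p > 3`, with the class number of the
imaginary quadratic field `ℚ(√-p)`.
-/

open MvPolynomial Pool.Agent.DPQ

namespace Pool.Agent.Results.MP_c81705_nt.DpClosedForm

/-- Closed form of `D_p` for every prime `p > 3`. For `p ≡ 3 (mod 4)`, `K` is the imaginary
quadratic field `ℚ(√-p)`. -/
theorem result (p : ℕ) [Fact p.Prime] (hp : 3 < p) :
    (p % 4 = 1 → D p = C (legendreSym p 2) * (p : MvPolynomial (Fin 4) ℤ) ^ ((p + 3) / 4) * X 0) ∧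
    (p % 4 = 3 →
      (∃ (K : Type) (_ : Field K) (_ : NumberField K) (a : K),
        Module.finrank ℚ K = 2 ∧ a ^ 2 = -(p : K)) ∧
      ∀ (K : Type) [Field K] [NumberField K] (a : K), Module.finrank ℚ K = 2 →
        a ^ 2 = -(p : K) →
        Odd (NumberField.classNumber K) ∧
        D p = (-1) ^ ((NumberField.classNumber K - 1) / 2)
          * (p : MvPolynomial (Fin 4) ℤ) ^ ((p - 3) / 4) *
          ((p : MvPolynomial (Fin 4) ℤ) * X 0 +
            C ((2 - legendreSym p 2) * (NumberField.classNumber K : ℤ))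
              * ((X 1 + 2) * X 2 - X 3 * X 0))) := by
  obtain ⟨h1, h3⟩ := closed_form p hp
  refine ⟨h1, fun h => ⟨exists_field p (Fact.out), ?_⟩⟩
  intro K _ _ a hK ha
  obtain ⟨g, hg, hodd, hD⟩ := h3 h
  have hcn := Pool.Agent.DCN.class_number_formula K p h hp hK a ha
  have hp0 : (p : ℤ) ≠ 0 := by
    have : p ≠ 0 := by omega
    exact_mod_cast this
  have hgc : g = (NumberField.classNumber K : ℤ) := by
    apply mul_left_cancel₀ hp0
    rw [hg, mul_comm, hcn]
  subst hgc
  have hodd' : Odd (NumberField.classNumber K) := by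
    rw [Nat.odd_iff]
    omega
  refine ⟨hodd', ?_⟩
  have e : (((NumberField.classNumber K : ℤ) - 1) / 2).natAbs
      = (NumberField.classNumber K - 1) / 2 := by
    rw [Nat.odd_iff] at hodd'
    omega
  rw [hD, e]

end Pool.Agent.Results.MP_c81705_nt.DpClosedForm
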