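import Mathlib

/-!
For every prime `p ≡ 1 (mod 4)` the determinant `E_p` equals `4 p^{(p-5)/4} x_p y z` for some
integer `x_p`.
-/

open MvPolynomial Matrix Finset

namespace Pool.Agent.Results.MP_c81705_nt.EpDivisibility

/-- The determinant `E_p` as an element of `ℤ[x,y,z,w]`, where the four indeterminates
`x, y, z, w` are `X 0, X 1, X 2, X 3`. Rows `j` and columns `k` run over `0, …, (p-1)/2`. -/
noncomputable def E (p : ℕ) [Fact p.Prime] : MvPolynomial (Fin 4) ℤ :=
  Matrix.det (Matrix.of fun j k : Fin ((p - 1) / 2 + 1) =>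
    C (legendreSym p (((j : ℕ) : ℤ) + ((k : ℕ) : ℤ)))
      - C (legendreSym p (((j : ℕ) : ℤ) - ((k : ℕ) : ℤ)))
      + C (legendreSym p ((j : ℕ) : ℤ)) * X 1 + C (legendreSym p ((k : ℕ) : ℤ)) * X 2)

section linear_algebra

variable {R : Type*} [CommRing R]

lemma det_lower {n : ℕ} (M : Matrix (Fin (n + 1)) (Fin (n + 1)) R) (h : ∀ k : Fin n, M 0 k.succ = 0) :
    M.det = M 0 0 * (M.submatrix Fin.succ Fin.succ).det := by
  rw [det_succ_row_zero, Fin.sum_univ_succ]
  simp [h]

lemma border {n : ℕ} (B : Matrix (Fin n) (Fin n) R) (v : Fin n → R) (y z q : R)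
    (hB : Bᵀ * B = q • (1 : Matrix (Fin n) (Fin n) R))
    (M : Matrix (Fin (n + 1)) (Fin (n + 1)) R) (h00 : M 0 0 = 0)
    (h0 : ∀ k : Fin n, M 0 k.succ = z * v k) (h1 : ∀ j : Fin n, M j.succ 0 = y * v j)
    (h2 : ∀ j k : Fin n, M j.succ k.succ = B j k + y * v j + z * v k) :
    q * M.det = -(y * z) * (∑ j, ∑ k, v j * v k * B j k) * B.det := by
  -- first clear the two rank-one terms
  let M1 : Matrix (Fin (n + 1)) (Fin (n + 1)) R :=
    Matrix.of (Fin.cases (Fin.cases 0 (fun k => z * v k))
      (fun j => Fin.cases (y * v j) (fun k => B j k + y * v j)))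
  have hM1 : M.det = M1.det := by
    apply det_eq_of_forall_row_eq_smul_add_const (Fin.cases 0 (fun _ => 1)) 0 (by simp)
    intro i j
    refine Fin.cases ?_ (fun i => ?_) i <;> refine Fin.cases ?_ (fun j => ?_) j <;>
      simp [M1, h00, h0, h1, h2]
  let M2 : Matrix (Fin (n + 1)) (Fin (n + 1)) R :=
    Matrix.of (Fin.cases (Fin.cases 0 (fun k => z * v k))
      (fun j => Fin.cases (y * v j) (fun k => B j k)))
  have hM2 : M1.det = M2.det := by
    rw [← det_transpose M1, ← det_transpose M2]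
    apply det_eq_of_forall_row_eq_smul_add_const (Fin.cases 0 (fun _ => 1)) 0 (by simp)
    intro i j
    refine Fin.cases ?_ (fun i => ?_) i <;> refine Fin.cases ?_ (fun j => ?_) j <;>
      simp [M1, M2]
  let L : Matrix (Fin (n + 1)) (Fin (n + 1)) R :=
    Matrix.of (Fin.cases (Fin.cases q (fun k => -z * ∑ i, v i * B k i))
      (fun j => Fin.cases 0 (fun k => if j = k then 1 else 0)))
  have hL : L.det = q := by
    rw [← det_transpose, det_lower]
    · have : (Lᵀ.submatrix Fin.succ Fin.succ) = (1 : Matrix (Fin n) (Fin n) R) := by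
        ext i j
        simp [L, Matrix.one_apply, eq_comm]
      rw [this]
      simp [L]
    · intro k
      simp [L]
  have hprod : (L * M2).det = (-(y * z) * (∑ j, ∑ k, v j * v k * B j k)) * B.det := by
    rw [det_lower]
    · congr 1
      · simp only [Matrix.mul_apply, Fin.sum_univ_succ]
        simp only [L, M2, Matrix.of_apply, Fin.cases_zero, Fin.cases_succ, mul_zero, zero_add,
          Finset.mul_sum, Finset.sum_mul]
        refine Finset.sum_congr rfl fun j _ => Finset.sum_congr rfl fun k _ => ?_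
        ring
      · congr 1
        ext i j
        simp only [Matrix.submatrix_apply, Matrix.mul_apply, Fin.sum_univ_succ]
        simp [L, M2]
    · intro k
      simp only [Matrix.mul_apply, Fin.sum_univ_succ]
      simp only [L, M2, Matrix.of_apply, Fin.cases_zero, Fin.cases_succ]
      have hk : ∀ i, ∑ j, B j i * B j k = if i = k then q else 0 := by
        intro i
        have := congrFun (congrFun hB i) k
        simpa [Matrix.mul_apply, Matrix.transpose_apply, Matrix.smul_apply, Matrix.one_apply]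
          using this
      have : ∑ x, (-z * ∑ i, v i * B x i) * B x k = -z * ∑ i, v i * ∑ x, B x i * B x k := by
        simp only [Finset.mul_sum, Finset.sum_mul]
        rw [Finset.sum_comm]
        refine Finset.sum_congr rfl fun j _ => Finset.sum_congr rfl fun k _ => ?_
        ring
      rw [this]
      simp only [hk]
      simp
      ring
  rw [hM1, hM2]
  calc q * M2.det = (L * M2).det := by rw [det_mul, hL]
    _ = _ := hprod

end linear_algebra

section char_sums

variable (p : ℕ) [Fact p.Prime]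

local instance : DecidableEq (ZMod p) := inferInstance

/-- the quadratic character of `ZMod p` -/
noncomputable abbrev qc : MulChar (ZMod p) ℤ := quadraticChar (ZMod p)

lemma sum_qc_mul_one_sub (hp : p ≠ 2) : ∑ x : ZMod p, qc p x * qc p (1 - x) = - qc p (-1) := by
  have hne : (qc p) ≠ 1 := quadraticChar_ne_one (by rwa [ZMod.ringChar_zmod_n])
  have := jacobiSum_nontrivial_inv hne
  rw [jacobiSum, (quadraticChar_isQuadratic (ZMod p)).inv] at this
  exact this

lemma corr (hp : p ≠ 2) (a b : ZMod p) :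
    ∑ x : ZMod p, qc p (x + a) * qc p (x + b) = if a = b then (p : ℤ) - 1 else -1 := by
  split_ifs with h
  · subst h
    rw [Fintype.sum_equiv (Equiv.addRight a) (fun x => qc p (x + a) * qc p (x + a))
      (fun x => qc p x * qc p x) (fun x => rfl)]
    have : ∀ x : ZMod p, qc p x * qc p x = if x = 0 then 0 else 1 := by
      intro x
      split_ifs with hx
      · simp [hx]
      · rw [← sq]
        exact quadraticChar_sq_one hx
    simp only [this]
    rw [Finset.sum_ite, Finset.sum_const_zero, zero_add, Finset.sum_const, Finset.filter_not,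
      Finset.filter_eq' , if_pos (Finset.mem_univ _), Finset.card_sdiff_of_subset (by simp)]
    have := (Fact.out : p.Prime).one_lt
    simp [Finset.card_univ, ZMod.card, Nat.cast_sub this.le]
  · have hd : b - a ≠ 0 := sub_ne_zero.mpr (Ne.symm h)
    -- substitute x + a = -(b-a) * t
    have key : ∑ x : ZMod p, qc p (x + a) * qc p (x + b)
        = ∑ t : ZMod p, qc p (-1) * (qc p t * qc p (1 - t)) := by
      symm
      apply Fintype.sum_bijective (fun t : ZMod p => -(b - a) * t - a)
      · constructor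
        · intro s t hst
          have : -(b - a) * s = -(b - a) * t := by simpa using hst
          exact mul_left_cancel₀ (neg_ne_zero.mpr hd) this
        · intro x
          refine ⟨(x + a) / (-(b - a)), ?_⟩
          field_simp
          ring
      · intro t
        have e1 : -(b - a) * t - a + a = (-1) * (b - a) * t := by ring
        have e2 : -(b - a) * t - a + b = (b - a) * (1 - t) := by ring
        rw [e1, e2, map_mul, map_mul, map_mul]
        have := quadraticChar_sq_one hd
        rw [sq] at this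
        calc qc p (-1) * (qc p t * qc p (1 - t))
            = (qc p (b - a) * qc p (b - a)) * (qc p (-1) * (qc p t * qc p (1 - t))) := by
              rw [this, one_mul]
          _ = _ := by ring
    rw [key, ← Finset.mul_sum, sum_qc_mul_one_sub p hp]
    have := quadraticChar_sq_one (F := ZMod p) (a := -1) (by simp)
    rw [sq] at this
    linear_combination -this

/-- sums over `ZMod p` of even functions vanishing at `0` -/
lemma sum_even {n : ℕ} (hn : p = 2 * n + 1) (f : ZMod p → ℤ) (h0 : f 0 = 0)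
    (hev : ∀ x, f (-x) = f x) :
    ∑ x : ZMod p, f x = 2 * ∑ j : Fin n, f (((j : ℕ) + 1 : ℕ) : ZMod p) := by
  have h1 : ∑ x : ZMod p, f x = ∑ i ∈ Finset.range p, f (i : ZMod p) := by
    refine Finset.sum_nbij' (fun x => x.val) (fun i => (i : ZMod p)) ?_ ?_ ?_ ?_ ?_
    · intro x _
      simpa using ZMod.val_lt x
    · intro i _
      simp
    · intro x _
      simp
    · intro i hi
      simpa using ZMod.val_cast_of_lt (Finset.mem_range.mp hi)
    · intro x _
      simp
  rw [h1]
  have h2 : Finset.range p = Finset.range (n + n + 1) := by rw [hn]; ring_nf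
  rw [h2, Finset.sum_range_succ', Finset.sum_range_add, Fin.sum_univ_eq_sum_range
    (fun i => f ((i + 1 : ℕ) : ZMod p)) n]
  have h3 : ∑ i ∈ Finset.range n, f ((n + i + 1 : ℕ) : ZMod p)
      = ∑ i ∈ Finset.range n, f ((i + 1 : ℕ) : ZMod p) := by
    rw [← Finset.sum_range_reflect]
    refine Finset.sum_congr rfl fun i hi => ?_
    rw [← hev]
    congr 1
    have hi' := Finset.mem_range.mp hi
    have : ((n + (n - 1 - i) + 1 : ℕ) + (i + 1 : ℕ) : ZMod p) = ((p : ℕ) : ZMod p) := by
      rw [← Nat.cast_add]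
      congr 1
      omega
    rw [ZMod.natCast_self] at this
    exact neg_eq_of_add_eq_zero_right this
  rw [h3]
  simp [h0]
  ring

lemma qc_neg_one_mul (h : p % 4 = 1) (x : ZMod p) : qc p (-x) = qc p x := by
  have hp : p ≠ 2 := by omega
  have h1 : qc p (-1) = 1 := by
    rw [quadraticChar_neg_one (by rwa [ZMod.ringChar_zmod_n]), ZMod.card]
    exact ZMod.χ₄_nat_one_mod_four h
  rw [← neg_one_mul x, map_mul, h1, one_mul]

/-- the matrix `B`, with rows and columns `1, …, n` -/
noncomputable def B (n : ℕ) : Matrix (Fin n) (Fin n) ℤ := Matrix.of fun j k =>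
  qc p ((((j : ℕ) + 1 : ℕ) : ZMod p) + (((k : ℕ) + 1 : ℕ) : ZMod p))
    - qc p ((((j : ℕ) + 1 : ℕ) : ZMod p) - (((k : ℕ) + 1 : ℕ) : ZMod p))

lemma natCast_ne (n : ℕ) (hn : p = 2 * n + 1) (k l : Fin n) (h : k ≠ l) :
    (((k : ℕ) + 1 : ℕ) : ZMod p) ≠ (((l : ℕ) + 1 : ℕ) : ZMod p) := by
  intro h'
  rw [ZMod.natCast_eq_natCast_iff'] at h'
  have hk := k.2
  have hl := l.2
  rw [Nat.mod_eq_of_lt (by omega), Nat.mod_eq_of_lt (by omega)] at h'
  exact h (Fin.ext (by omega))

lemma natCast_ne_neg (n : ℕ) (hn : p = 2 * n + 1) (k l : Fin n) :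
    (((k : ℕ) + 1 : ℕ) : ZMod p) ≠ - (((l : ℕ) + 1 : ℕ) : ZMod p) := by
  intro h'
  rw [eq_neg_iff_add_eq_zero, ← Nat.cast_add, ZMod.natCast_eq_zero_iff] at h'
  have hk := k.2
  have hl := l.2
  have := Nat.le_of_dvd (by omega) h'
  omega

lemma BtB (h : p % 4 = 1) (n : ℕ) (hn : p = 2 * n + 1) :
    (B p n)ᵀ * (B p n) = (p : ℤ) • (1 : Matrix (Fin n) (Fin n) ℤ) := by
  have hp : p ≠ 2 := by omega
  ext k l
  rw [Matrix.mul_apply]
  simp only [Matrix.transpose_apply, Matrix.smul_apply, smul_eq_mul, Matrix.one_apply, mul_ite,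
    mul_one, mul_zero]
  set a : ZMod p := (((k : ℕ) + 1 : ℕ) : ZMod p) with ha
  set b : ZMod p := (((l : ℕ) + 1 : ℕ) : ZMod p) with hb
  let f : ZMod p → ℤ := fun x => (qc p (x + a) - qc p (x - a)) * (qc p (x + b) - qc p (x - b))
  have h0 : f 0 = 0 := by
    change (qc p (0 + a) - qc p (0 - a)) * _ = 0
    rw [zero_add, zero_sub, qc_neg_one_mul p h, sub_self, zero_mul]
  have hev : ∀ x, f (-x) = f x := by
    intro x
    have e1 : -x + a = -(x - a) := by ring
    have e2 : -x - a = -(x + a) := by ring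
    have e3 : -x + b = -(x - b) := by ring
    have e4 : -x - b = -(x + b) := by ring
    simp only [f, e1, e2, e3, e4, qc_neg_one_mul p h]
    ring
  have hs := sum_even p hn f h0 hev
  have hs' : ∑ j : Fin n, f (((j : ℕ) + 1 : ℕ) : ZMod p) = ∑ j, B p n j k * B p n j l := by
    refine Finset.sum_congr rfl fun j _ => ?_
    simp [f, B, ha, hb]
  rw [hs'] at hs
  have hc : ∑ x : ZMod p, f x = (if a = b then (p : ℤ) - 1 else -1)
      - (if a = -b then (p : ℤ) - 1 else -1) - (if -a = b then (p : ℤ) - 1 else -1)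
      + (if -a = -b then (p : ℤ) - 1 else -1) := by
    rw [← corr p hp a b, ← corr p hp a (-b), ← corr p hp (-a) b, ← corr p hp (-a) (-b),
      ← Finset.sum_sub_distrib, ← Finset.sum_sub_distrib, ← Finset.sum_add_distrib]
    refine Finset.sum_congr rfl fun x _ => ?_
    simp only [f, sub_eq_add_neg]
    ring
  rw [hs] at hc
  have hab' : a ≠ -b := natCast_ne_neg p n hn k l
  have hab'' : -a ≠ b := by
    intro h
    exact hab' (by rw [← h, neg_neg])
  rw [if_neg hab', if_neg hab''] at hc
  by_cases hkl : k = l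
  · have : a = b := by rw [ha, hb, hkl]
    rw [if_pos hkl]
    rw [if_pos this, if_pos (by rw [this])] at hc
    linarith
  · have : a ≠ b := natCast_ne p n hn k l hkl
    rw [if_neg hkl]
    rw [if_neg this, if_neg (by simpa using this)] at hc
    linarith

lemma det_B (h : p % 4 = 1) (n m : ℕ) (hn : p = 2 * n + 1) (hm : n = 2 * m) :
    (B p n).det = (p : ℤ) ^ m ∨ (B p n).det = -(p : ℤ) ^ m := by
  have h1 := congrArg Matrix.det (BtB p h n hn)
  rw [det_mul, det_transpose, det_smul, det_one, mul_one, Fintype.card_fin, hm, mul_comm 2 m,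
    pow_mul, ← sq] at h1
  rw [← hm.trans (mul_comm 2 m)] at h1
  exact sq_eq_sq_iff_eq_or_eq_neg.mp h1

/-- the quadratic form value `S = ∑ (jk/p)((j+k/p) - (j-k/p))` -/
noncomputable def S (n : ℕ) : ℤ := ∑ j : Fin n, ∑ k : Fin n,
  qc p (((j : ℕ) + 1 : ℕ) : ZMod p) * qc p (((k : ℕ) + 1 : ℕ) : ZMod p) * B p n j k

lemma four_dvd_S (h : p % 4 = 1) (n : ℕ) (hn : p = 2 * n + 1) : (4 : ℤ) ∣ S p n := by
  have hp : p ≠ 2 := by omega
  let T : Fin n → Fin n → ℤ := fun j k =>
    qc p (((j : ℕ) + 1 : ℕ) : ZMod p) * qc p (((k : ℕ) + 1 : ℕ) : ZMod p) * B p n j k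
  have hsymm : ∀ j k, T j k = T k j := by
    intro j k
    simp only [T, B, Matrix.of_apply]
    rw [← qc_neg_one_mul p h ((((k : ℕ) + 1 : ℕ) : ZMod p) - (((j : ℕ) + 1 : ℕ) : ZMod p)), neg_sub,
      add_comm (((k : ℕ) + 1 : ℕ) : ZMod p)]
    ring
  have hdiag : ∑ j, T j j = 0 := by
    have hz : ∑ j : Fin n, qc p (((j : ℕ) + 1 : ℕ) : ZMod p) = 0 := by
      have h1 := sum_even p hn (fun x => qc p x) (by simp) (qc_neg_one_mul p h)
      have h2 : ∑ x : ZMod p, qc p x = 0 :=
        quadraticChar_sum_zero (by rwa [ZMod.ringChar_zmod_n])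
      rw [h2] at h1
      omega
    have : ∀ j : Fin n, T j j = qc p 2 * qc p (((j : ℕ) + 1 : ℕ) : ZMod p) := by
      intro j
      have hj : ((((j : ℕ) + 1 : ℕ) : ZMod p)) ≠ 0 := by
        intro h0
        rw [ZMod.natCast_eq_zero_iff] at h0
        have := Nat.le_of_dvd (by omega) h0
        have := j.2
        omega
      simp only [T, B, Matrix.of_apply]
      have e1 : qc p (((j : ℕ) + 1 : ℕ) : ZMod p) * qc p (((j : ℕ) + 1 : ℕ) : ZMod p) = 1 := by
        rw [← sq]
        exact quadraticChar_sq_one hj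
      rw [e1, sub_self, ← two_mul, map_mul]
      simp
    simp only [this, ← Finset.mul_sum, hz, mul_zero]
  have heven : ∀ j k : Fin n, j ≠ k → ∃ t, T j k = 2 * t := by
    intro j k hjk
    have h1 : ∀ x : ZMod p, x ≠ 0 → qc p x = 1 ∨ qc p x = -1 := fun x hx =>
      quadraticChar_dichotomy hx
    have hs : (((j : ℕ) + 1 : ℕ) : ZMod p) + (((k : ℕ) + 1 : ℕ) : ZMod p) ≠ 0 := by
      intro h0
      exact natCast_ne_neg p n hn j k (eq_neg_of_add_eq_zero_left h0)
    have hd : (((j : ℕ) + 1 : ℕ) : ZMod p) - (((k : ℕ) + 1 : ℕ) : ZMod p) ≠ 0 :=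
      sub_ne_zero.mpr (natCast_ne p n hn j k hjk)
    have h2 : ∃ t, B p n j k = 2 * t := by
      simp only [B, Matrix.of_apply]
      rcases h1 _ hs with e | e <;> rcases h1 _ hd with e' | e' <;> rw [e, e']
      · exact ⟨0, by norm_num⟩
      · exact ⟨1, by norm_num⟩
      · exact ⟨-1, by norm_num⟩
      · exact ⟨0, by norm_num⟩
    obtain ⟨t, ht⟩ := h2
    exact ⟨qc p (((j : ℕ) + 1 : ℕ) : ZMod p) * qc p (((k : ℕ) + 1 : ℕ) : ZMod p) * t, by
      simp only [T, ht]; ring⟩
  -- split
  have hsplit : S p n = ∑ j, T j j + 2 * ∑ j, ∑ k, (if j < k then T j k else 0) := by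
    have e1 : ∀ j k : Fin n, T j k = (if j = k then T j k else 0) + (if j < k then T j k else 0)
        + (if k < j then T j k else 0) := by
      intro j k
      rcases lt_trichotomy j k with hlt | heq | hgt
      · simp [hlt, hlt.ne, not_lt.mpr hlt.le]
      · simp [heq]
      · simp [hgt, hgt.ne', not_lt.mpr hgt.le]
    have e2 : ∑ j, ∑ k, (if k < j then T j k else 0) = ∑ j, ∑ k, (if j < k then T j k else 0) := by
      rw [Finset.sum_comm]
      refine Finset.sum_congr rfl fun j _ => Finset.sum_congr rfl fun k _ => ?_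
      rw [hsymm]
    calc S p n = ∑ j, ∑ k, T j k := rfl
      _ = ∑ j, ∑ k, ((if j = k then T j k else 0) + (if j < k then T j k else 0)
        + (if k < j then T j k else 0)) :=
          Finset.sum_congr rfl fun j _ => Finset.sum_congr rfl fun k _ => e1 j k
      _ = _ := by
        simp only [Finset.sum_add_distrib]
        rw [e2]
        simp
        ring
  rw [hsplit, hdiag, zero_add]
  have : (2 : ℤ) ∣ ∑ j, ∑ k, (if j < k then T j k else 0) := by
    refine Finset.dvd_sum fun j _ => Finset.dvd_sum fun k _ => ?_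
    split_ifs with hjk
    · obtain ⟨t, ht⟩ := heven j k hjk.ne
      exact ⟨t, ht⟩
    · exact dvd_zero 2
  obtain ⟨t, ht⟩ := this
  exact ⟨t, by rw [ht]; ring⟩

end char_sums

/-- For every prime `p ≡ 1 (mod 4)` there is an integer `c` with `E_p = 4 p^{(p-5)/4} c y z`. -/
theorem result (p : ℕ) [Fact p.Prime] (h : p % 4 = 1) :
    ∃ c : ℤ, E p = 4 * (p : MvPolynomial (Fin 4) ℤ) ^ ((p - 5) / 4) * C c * X 1 * X 2 := by
  have hprime : p.Prime := Fact.out
  have hp5 : 5 ≤ p := by
    have := hprime.two_le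
    by_contra hlt
    have : p = 2 ∨ p = 3 ∨ p = 4 := by omega
    rcases this with rfl | rfl | rfl <;> omega
  obtain ⟨m, hm⟩ : ∃ m, p = 4 * m + 5 := ⟨(p - 5) / 4, by omega⟩
  set n := 2 * (m + 1) with hn
  have hpn : p = 2 * n + 1 := by omega
  have hn' : (p - 1) / 2 = n := by omega
  have hm' : (p - 5) / 4 = m := by omega
  -- reindex the definition
  have hE : E p = Matrix.det (Matrix.of fun j k : Fin (n + 1) =>
      (C (legendreSym p (((j : ℕ) : ℤ) + ((k : ℕ) : ℤ)))
      - C (legendreSym p (((j : ℕ) : ℤ) - ((k : ℕ) : ℤ)))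
      + C (legendreSym p ((j : ℕ) : ℤ)) * X 1 + C (legendreSym p ((k : ℕ) : ℤ)) * X 2
        : MvPolynomial (Fin 4) ℤ)) := by
    rw [E, hn']
  set Bm : Matrix (Fin n) (Fin n) (MvPolynomial (Fin 4) ℤ) := (B p n).map C with hBm
  set v : Fin n → MvPolynomial (Fin 4) ℤ := fun j => C (qc p (((j : ℕ) + 1 : ℕ) : ZMod p)) with hv
  have hleg : ∀ a : ℤ, legendreSym p a = qc p (a : ZMod p) := fun a => rfl
  have hB' : Bmᵀ * Bm = (p : MvPolynomial (Fin 4) ℤ) • (1 : Matrix (Fin n) (Fin n) _) := by
    have h1 := congrArg (fun M : Matrix (Fin n) (Fin n) ℤ => M.map (C (σ := Fin 4)))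
      (BtB p h n hpn)
    simp only [Matrix.map_mul, Matrix.transpose_map] at h1
    rw [← hBm] at h1
    rw [h1]
    apply Matrix.ext
    intro i j
    rw [Matrix.map_apply, Matrix.smul_apply, Matrix.smul_apply, Matrix.one_apply,
      Matrix.one_apply]
    split_ifs <;> simp
  have hbord := border Bm v (X 1) (X 2) (p : MvPolynomial (Fin 4) ℤ) hB'
    (Matrix.of fun j k : Fin (n + 1) =>
      (C (legendreSym p (((j : ℕ) : ℤ) + ((k : ℕ) : ℤ)))
      - C (legendreSym p (((j : ℕ) : ℤ) - ((k : ℕ) : ℤ)))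
      + C (legendreSym p ((j : ℕ) : ℤ)) * X 1 + C (legendreSym p ((k : ℕ) : ℤ)) * X 2
        : MvPolynomial (Fin 4) ℤ))
    (by simp [hleg]) ?_ ?_ ?_
  rotate_left
  · intro k
    simp only [Matrix.of_apply, hleg, hv, Int.cast_add, Int.cast_sub, Int.cast_natCast,
      Fin.val_succ, Fin.val_zero, Nat.cast_zero, zero_add, zero_sub,
      qc_neg_one_mul p h, MulChar.map_zero, map_zero, zero_mul]
    ring
  · intro j
    simp only [Matrix.of_apply, hleg, hv, Int.cast_add, Int.cast_sub, Int.cast_natCast,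
      Fin.val_succ, Fin.val_zero, Nat.cast_zero, add_zero, sub_zero,
      MulChar.map_zero, map_zero, zero_mul]
    ring
  · intro j k
    simp only [Matrix.of_apply, hleg, hv, hBm, B, Matrix.map_apply, Int.cast_add, Int.cast_sub,
      Int.cast_natCast, Fin.val_succ, map_sub]
    ring
  rw [← hE] at hbord
  have hdet : Bm.det = C ((B p n).det) := by
    rw [hBm]
    exact (RingHom.map_det C (B p n)).symm
  have hS : ∑ j, ∑ k, v j * v k * Bm j k = C (S p n) := by
    simp [S, hv, hBm, Matrix.map_apply]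
  obtain ⟨s, hs⟩ := four_dvd_S p h n hpn
  have hp0 : (p : MvPolynomial (Fin 4) ℤ) ≠ 0 := by
    exact_mod_cast hprime.ne_zero
  rw [hdet, hS, hs] at hbord
  rcases det_B p h n (m + 1) hpn hn with hd | hd
  · refine ⟨-s, mul_left_cancel₀ hp0 ?_⟩
    rw [hbord, hd, hm']
    simp only [map_mul, map_neg, map_pow, map_natCast, map_ofNat]
    ring
  · refine ⟨s, mul_left_cancel₀ hp0 ?_⟩
    rw [hbord, hd, hm']
    simp only [map_mul, map_neg, map_pow, map_natCast, map_ofNat]
    ring

end Pool.Agent.Results.MP_c81705_nt.EpDivisibility
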